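import Pool.Agent.K4H33.SD.Fin

/-!
# Stark units in generalized dihedral extensions of exponent four over almost totally real fields

`Qbar` is an algebraic closure of `ℚ` and `ι : Qbar → ℂ` an embedding.  All fields are subfields of
`Qbar`, and Galois groups are described by the automorphisms `GQ` of `Qbar`.

* `F` is totally real of degree `n ≥ 2`, and `K` is a quadratic extension of `F` with exactly one
  complex place, the one given by `ι` (`Fields`).
* `H` is an abelian extension of `K` of exponent dividing four which is normal over `F`, such that
  the elements of `Gal(H/F)` outside `Gal(H/K)` act on `Gal(H/K)` by inversion (`Dihedral`).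
* `𝔪` is an ideal of `K`, divisible by the primes which ramify in `H` and stable under `Gal(K/F)`,
  and `art` is the Artin symbol of `H/K` on the ideals prime to `𝔪`.
* `[H : K] ≤ 2 ^ e` with `e = 2 n - 3 + t`, where `t` is the number of primes of `F` below `𝔪`
  (`DegreeBound`, `expo`).
* `𝔣` is a nonzero ideal of `K` divisible by all primes dividing `𝔪`, and `S` consists of the
  infinite places and the primes dividing `𝔣`.

The conclusion `StarkATR` is the rank one abelian Stark conjecture, in Tate's refined form, for
`H/K` and `S`.  The only inputs on `L`-functions (`Inputs`) are classical: the order of vanishing of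
the zeta function of `K`, Artin's formalism, and the class number formula for quadratic extensions of
`K` and of the totally real fields `K'`.
-/

set_option autoImplicit false

namespace Pool.Agent.Results.MP_ca56d1_nt.DihedralStarkUnits

open NumberField Pool.Agent.K4H33.SD
open Pool.Agent.K4H33.SK (Qbar GQ IsTorsionOrder)
open Pool.Agent.K4H33.SK.Stmt (Sub Ideals IsArtin)
open Pool.Agent.K4H33.SQ (StarkATR)

theorem result (ι : Qbar →+* ℂ) (F K H : Sub) [NumberField K] (n : ℕ) (hF : Fields ι F K n)
    (hD : Dihedral F K H) (𝔪 : Ideals K) (art : Ideals K → GQ) (hart : IsArtin K H 𝔪 art)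
    (hI : Inputs ι K H (expo F K n 𝔪) 𝔪 art) (hdeg : DegreeBound H n (expo F K n 𝔪))
    (W : ℕ) (hW : IsTorsionOrder H W) (𝔣 : Ideals K) (h𝔣 : PrimesOf K 𝔪 𝔣) :
    StarkATR ι K H 𝔣 art W :=
  dihedral_general ι F K H n hF hD 𝔪 art hart hI hdeg W hW 𝔣 h𝔣

end Pool.Agent.Results.MP_ca56d1_nt.DihedralStarkUnits
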