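import Pool.Agent.K4H33.SQ.Quartic

/-!
# Stark units over quartic fields with one complex place

`Qbar` is an algebraic closure of `ℚ` and `ι : Qbar → ℂ` an embedding.  All fields are subfields of
`Qbar`, and Galois groups are described by the automorphisms `GQ` of `Qbar`.

* `F` is a real quadratic field and `K` a quadratic extension of `F` with exactly one complex place,
  given by `ι`: an almost totally real quartic field.
* `k` is a quadratic field with `K ⊔ k` normal over `ℚ`: one of the two imaginary quadratic subfields
  of the (dihedral, octic) normal closure of `K`.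
* `k'` is any subfield of the `f`-th cyclotomic field, `H = K ⊔ k'`, and `𝔣` is a nonzero ideal of
  `K` divisible by all primes dividing `f`.  The set `S` consists of the infinite places of `K` and
  the primes dividing `𝔣`.
* `hS` is Stark's theorem for the abelian extension `K ⊔ k ⊔ k'` of `k`; `hDR` is the theorem of
  Siegel, Klingen and Deligne–Ribet for the abelian extension `F ⊔ k'` of `F`; `hA` is the
  factorization `ζ_K(s) = ζ_F(s) L(s, ψ)` (with `k` chosen such that `K ⊔ k` is cyclic over `k`, it
  holds with `𝔪` the product of `f` and the conductor of `K ⊔ k` over `k`).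

The conclusion `StarkATR` is the rank one abelian Stark conjecture, in Tate's refined form, for
`H/K`, `S` and the complex place.
-/

set_option autoImplicit false

namespace Pool.Agent.Results.MP_ca56d1_nt.QuarticStarkUnits

open NumberField Pool.Agent.K4H33.SQ
open Pool.Agent.K4H33.SK (Qbar GQ IsTorsionOrder)
open Pool.Agent.K4H33.SK.Stmt (Sub Ideals principal PrimesOver StarkImQuad)

theorem result (ι : Qbar →+* ℂ) (F K k k' : Sub) [NumberField F] [NumberField K]
    [NumberField k] (f : ℕ) (ζ : Qbar) (hF : Fields ι F K k k' f ζ) (𝔪 : Ideals k)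
    (art : Ideals k → GQ) (artK : Ideals K → GQ) (artF : Ideals F → GQ)
    (hart : Symbols F K k f ζ 𝔪 art artK artF) (hA : ArtinFactorization F K k f 𝔪 art)
    (hDR : DeligneRibet F (F ⊔ k') (principal F f) artF) (W' : ℕ)
    (hW' : IsTorsionOrder (K ⊔ k ⊔ k') W') (hS : StarkImQuad ι k (K ⊔ k ⊔ k') 𝔪 art W')
    (W : ℕ) (hW : IsTorsionOrder (K ⊔ k') W) (𝔣 : Ideals K) (h𝔣 : PrimesOver K f 𝔣) :
    StarkATR ι K (K ⊔ k') 𝔣 artK W :=
  stark_quartic_general ι F K k k' f ζ hF 𝔪 art artK artF hart hA hDR W' hW' hS W hW 𝔣 h𝔣

end Pool.Agent.Results.MP_ca56d1_nt.QuarticStarkUnits
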