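import Pool.Agent.K4H33.SR.FinalR

/-!
# Stark units over real quadratic fields, when an imaginary quadratic field helps

`Qbar` is an algebraic closure of `ℚ` and `ι : Qbar → ℂ` an embedding.  All fields are subfields of
`Qbar`, and Galois groups are described by the automorphisms `GQ` of `Qbar`.

* `K` is a real quadratic field, `k` an imaginary quadratic field, `E` a finite normal extension of
  `ℚ` abelian over both `K` and `k`, and `H` the maximal subfield of `E` which is real under `ι`.
* `H'` is any field between `K` and `H`.  (If `H'/K` is an abelian extension in which the real place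
  given by `ι` splits completely, and if `H' k` is abelian over `k`, then `H'` arises in this way from
  the normal closure `E` of `H' k`.)
* `𝔣` is a nonzero ideal of `K` divisible by all primes dividing `f`, and `S` consists of the
  infinite places of `K` and the primes dividing `𝔣`.

The conclusion `StarkReal` is the rank one abelian Stark conjecture, in Tate's refined form, for
`H'/K`, `S` and the real place given by `ι`.  Inputs: Stark's theorem for `E/k`, Artin's formalism
for `L`-functions, and the continuation and order of vanishing of partial zeta functions of `H/K`.
-/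

set_option autoImplicit false

namespace Pool.Agent.Results.MP_ca56d1_nt.RealQuadraticStark

open NumberField Pool.Agent.K4H33.SR
open Pool.Agent.K4H33.SK (Qbar GQ IsTorsionOrder)
open Pool.Agent.K4H33.SK.Stmt (Sub Ideals principal PrimesOver StarkImQuad)

theorem result (ι : Qbar →+* ℂ) (K k E H H' : Sub) [NumberField K] [NumberField k]
    (h : Fields ι K k E H) (hKH' : K ≤ H') (hH' : H' ≤ H) (f : ℕ) (artK : Ideals K → GQ)
    (art : Ideals k → GQ) (hart : Symbols K k E f artK art) (W : ℕ) (hW : IsTorsionOrder E W)
    (hS : StarkImQuad ι k E (principal k f) art W)
    (hA : ∀ a c c' g : GQ, IsTwist ι K k a c c' g →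
      ArtinFormalism K k E H (principal K f) artK (principal k f) art a)
    (hO : ∀ a c c' g : GQ, IsTwist ι K k a c c' g → OrderTwo K H (principal K f) artK a)
    (𝔣 : Ideals K) (h𝔣 : PrimesOver K f 𝔣) : StarkReal ι K H' 𝔣 artK :=
  stark_real_general ι K k E H H' h hKH' hH' f artK art hart W hW hS hA hO 𝔣 h𝔣

end Pool.Agent.Results.MP_ca56d1_nt.RealQuadraticStark
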